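import Pool.Agent.W133.RP.St

set_option autoImplicit false

open MeasureTheory Set Filter Topology

namespace Pool.Agent.W293.RP

open Pool.Agent.W133.RP

theorem det_upd {E ι : Type} [AddCommGroup E] [Module ℝ E] [Fintype ι] [DecidableEq ι]
    (b : Module.Basis ι ℝ E) (i : ι) (w : E) :
    b.det (Function.update (b : ι → E) i w) = b.repr w i := by
  rw [Module.Basis.det_apply, Module.Basis.toMatrix_update, Module.Basis.toMatrix_self,
    ← Matrix.cramer_apply, Matrix.cramer_one]
  rfl

theorem auer : S_AUER := by
  intro E _ _ _ _ _ _ S hS1 hS2 hS3 hS4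
  classical
  set d := Module.finrank ℝ E with hd
  -- S is nonempty
  have hne : S.Nonempty := by
    by_contra h
    rw [not_nonempty_iff_eq_empty] at h
    rw [h] at hS4
    simp at hS4
  have hmeas : volume S ≠ 0 := by
    intro h
    rw [measureReal_def, h] at hS4
    simp at hS4
  -- S spans
  have hspan : Submodule.span ℝ S = ⊤ := by
    by_contra h
    have h1 := Measure.addHaar_submodule (volume : Measure E) (Submodule.span ℝ S) h
    exact hmeas (measure_mono_null Submodule.subset_span h1)
  -- a basis in S
  have hex : ∃ v : Module.Basis (Fin d) ℝ E, ∀ i, v i ∈ S := by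
    have hfin := FiniteDimensional.fintypeBasisIndex (Module.Basis.ofSpan hspan.ge)
    have hcard : Fintype.card ((linearIndepOn_empty ℝ _root_.id).extend (empty_subset S)) = d :=
      (Module.finrank_eq_card_basis (Module.Basis.ofSpan hspan.ge)).symm
    refine ⟨(Module.Basis.ofSpan hspan.ge).reindex (Fintype.equivFinOfCardEq hcard), fun i => ?_⟩
    rw [Module.Basis.reindex_apply]
    exact Module.Basis.ofSpan_subset hspan.ge (mem_range_self _)
  obtain ⟨v, hv⟩ := hex
  have b0 : Module.Basis (Fin d) ℝ E := Module.finBasis ℝ E
  -- continuity of the determinant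
  have hcont : Continuous (fun x : Fin d → E => |b0.det x|) := by
    have : Continuous (fun x : Fin d → E => b0.det x) := by
      have e : (fun x : Fin d → E => b0.det x) = fun x => (Matrix.of fun i j => b0.repr (x j) i).det := by
        funext x
        rw [Module.Basis.det_apply]
        rfl
      rw [e]
      refine Continuous.matrix_det ?_
      refine continuous_matrix fun i j => ?_
      have : Continuous (fun y : E => b0.repr y i) :=
        (LinearMap.continuous_of_finiteDimensional (b0.coord i))
      exact this.comp (continuous_apply j)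
    exact this.abs
  have hcpt : IsCompact (Set.pi univ (fun _ : Fin d => S)) := isCompact_univ_pi fun _ => hS2
  obtain ⟨e, heS, hmax⟩ := hcpt.exists_isMaxOn ⟨fun _ => hne.some, fun _ _ => hne.some_mem⟩
    hcont.continuousOn
  have heS' : ∀ i, e i ∈ S := fun i => heS i (mem_univ i)
  have hpos : 0 < |b0.det e| := by
    have h1 : |b0.det v| ≤ |b0.det e| := hmax (a := v) (fun i _ => hv i)
    have h2 : IsUnit (b0.det v) := Module.Basis.isUnit_det _ _
    exact lt_of_lt_of_le (abs_pos.mpr h2.ne_zero) h1
  have hunit : IsUnit (b0.det e) := by
    rw [isUnit_iff_ne_zero]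
    exact abs_pos.mp hpos
  obtain ⟨hli, hsp⟩ := (Module.Basis.is_basis_iff_det b0).mpr hunit
  set b := Module.Basis.mk hli hsp.ge with hb
  have hbe : (b : Fin d → E) = e := Module.Basis.coe_mk _ _
  refine ⟨b, fun i => by rw [hbe]; exact heS' i, ?_⟩
  intro w hw i
  have h1 : b0.det (Function.update e i w) = b0.det e * b.repr w i := by
    have h2 := congrArg (fun f => f (Function.update e i w)) (AlternatingMap.eq_smul_basis_det b b0.det)
    simp only [AlternatingMap.smul_apply, smul_eq_mul] at h2
    rw [hbe] at h2
    rw [h2, ← hbe, det_upd]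
  have h3 : |b0.det (Function.update e i w)| ≤ |b0.det e| := by
    refine hmax (a := Function.update e i w) fun j _ => ?_
    by_cases hj : j = i
    · subst hj
      rw [Function.update_self]
      exact hw
    · rw [Function.update_of_ne hj]
      exact heS' j
  rw [h1, abs_mul] at h3
  exact le_of_mul_le_mul_left (by rwa [mul_one]) hpos

end Pool.Agent.W293.RP
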