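import Pool.Agent.W133.RP.St

set_option autoImplicit false

open MeasureTheory Set Filter Topology

namespace Pool.Agent.W293.RP

open Pool.Agent.W133.RP

theorem dyad (hMRB : S_MRB) (hBI : S_BI) (hFLO : S_FLO) (hFLB : S_FLB) (hFLM : S_FLM)
    (hLC : S_LC) (hHALF : S_HALF) : S_DYAD := by
  intro k hk K hB
  have hfr : Module.finrank ℝ (EuclideanSpace ℝ (Fin k)) = k := by simp
  obtain ⟨hM1, hM2, hM3, hM4, hM5, hM6, hM7, hM8, hM9, hM10⟩ := hMRB (EuclideanSpace ℝ (Fin k)) K hB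
  obtain ⟨hc, hK, w, hw⟩ := id hB
  obtain ⟨ρ', hρ', hball⟩ := Metric.isOpen_iff.mp isOpen_interior w hw
  set ρ := ρ' / 4 with hρ
  have hρ0 : 0 < ρ := by positivity
  have hcb : Metric.closedBall w (2 * ρ) ⊆ K := by
    refine (Metric.closedBall_subset_ball (by rw [hρ]; linarith)).trans (hball.trans interior_subset)
  obtain ⟨R, hR⟩ := hK.isBounded.subset_closedBall w
  have hR0 : 0 < max R 1 := lt_max_of_lt_right one_pos
  have hKR : K ⊆ Metric.closedBall w (max R 1) :=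
    hR.trans (Metric.closedBall_subset_closedBall (le_max_left _ _))
  obtain ⟨t0, ht0, hFB⟩ := hFLB (EuclideanSpace ℝ (Fin k)) K hB w ρ hρ0 hcb
  obtain ⟨C, hC, hBIC⟩ := hBI k hk ρ (max R 1) hρ0 hR0
  set A : ℝ := 2 * ((k : ℝ) + 1) ^ k with hA
  have hA0 : 0 < A := by positivity
  set r : ℝ := 2 ^ (k + 3) * A with hr
  have hr0 : 0 < r := by positivity
  refine ⟨C * (1 + 4 * r ^ k), by positivity, min t0 1, lt_min ht0 one_pos, ?_⟩
  intro t ht htt
  have htt0 : t ≤ t0 := htt.trans (min_le_left _ _)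
  have htt1 : t ≤ 1 := htt.trans (min_le_right _ _)
  have hk1 : (0 : ℝ) < (k : ℝ) + 1 := by positivity
  set δ : ℝ := t ^ (1 / ((k : ℝ) + 1)) with hδ
  have hδ0 : 0 < δ := Real.rpow_pos_of_pos ht _
  have hδ1 : δ ≤ 1 := Real.rpow_le_one ht.le htt1 (by positivity)
  have hδ2 : δ ^ 2 = t ^ (2 / ((k : ℝ) + 1)) := by
    rw [hδ, ← Real.rpow_natCast, ← Real.rpow_mul ht.le]
    congr 1
    push_cast
    ring
  have hδt : δ ^ (k + 1) = t := by
    rw [hδ, ← Real.rpow_natCast, ← Real.rpow_mul ht.le]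
    have : 1 / ((k : ℝ) + 1) * ((k + 1 : ℕ) : ℝ) = 1 := by
      push_cast
      field_simp
    rw [this, Real.rpow_one]
  obtain ⟨hFc, hFconv⟩ := hFLO (EuclideanSpace ℝ (Fin k)) K hB t
  have hFK : FL K t ⊆ K := fun x hx => hx.1
  obtain ⟨P, hP1, hP2, hP3⟩ := hBIC δ hδ0 hδ1 w (FL K t) hFc hFconv (hFB t htt0)
    (hFK.trans hKR)
  -- the regions
  classical
  set P' := P.filter (fun p => mu K p ≤ 4 * t) with hP'
  have hcover : FL K t \ FL K (2 * t) ⊆
      (FL K t \ convexHull ℝ (P : Set (EuclideanSpace ℝ (Fin k)))) ∪ ⋃ p ∈ P', MS K p r := by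
    rintro x ⟨hx1, hx2⟩
    by_cases hxP : x ∈ convexHull ℝ (P : Set (EuclideanSpace ℝ (Fin k)))
    · right
      have hlc : ∃ (l : EuclideanSpace ℝ (Fin k) →L[ℝ] ℝ) (c : ℝ), c ≤ l x ∧
          volume.real (cap K l c) < 2 * t := by
        by_contra hcon
        push Not at hcon
        exact hx2 ⟨hx1.1, hcon⟩
      obtain ⟨l, c, hlx, hvol⟩ := hlc
      have hp : ∃ p ∈ P, c ≤ l p := by
        by_contra hcon
        push Not at hcon
        have h1 : (P : Set (EuclideanSpace ℝ (Fin k))) ⊆ {y | l y < c} := fun y hy => hcon y hy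
        have h2 : Convex ℝ {y : EuclideanSpace ℝ (Fin k) | l y < c} :=
          convex_halfSpace_lt l.isLinear c
        have h3 := convexHull_min h1 h2 hxP
        exact absurd hlx (not_le.mpr h3)
      obtain ⟨p, hpP, hlp⟩ := hp
      obtain ⟨hpi, hpm⟩ := hFLM (EuclideanSpace ℝ (Fin k)) K hB t ht p (hP1 p hpP)
      rw [hfr] at hpm
      have hmu : 0 < mu K p := (hM4 p hpi).2
      have hvA : volume.real (cap K l c) ≤ A * mu K p := by
        rw [hA]
        linarith
      have hsub := hLC (EuclideanSpace ℝ (Fin k)) K hB p l c A (interior_subset hpi) hlp hA0 hmu hvA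
      rw [hfr] at hsub
      have hmu2 := (hHALF (EuclideanSpace ℝ (Fin k)) K hB).1 p l c hlp
      rw [mem_iUnion₂]
      refine ⟨p, ?_, hsub ⟨hx1.1, hlx⟩⟩
      rw [hP', Finset.mem_filter]
      exact ⟨hpP, by linarith⟩
    · exact Or.inl ⟨hx1, hxP⟩
  have hfin1 : volume (FL K t \ convexHull ℝ (P : Set (EuclideanSpace ℝ (Fin k)))) ≠ ⊤ :=
    ne_top_of_le_ne_top hFc.measure_lt_top.ne (measure_mono sdiff_subset)
  have hfin2 : volume (⋃ p ∈ P', MS K p r) ≠ ⊤ := by
    refine ((measure_biUnion_finset_le P' _).trans_lt ?_).ne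
    refine ENNReal.sum_lt_top.mpr fun p _ => ?_
    exact (hM5 p r hr0).1.measure_lt_top
  have h1 : volume.real (FL K t \ FL K (2 * t)) ≤
      volume.real (FL K t \ convexHull ℝ (P : Set (EuclideanSpace ℝ (Fin k)))) +
        volume.real (⋃ p ∈ P', MS K p r) := by
    refine (measureReal_mono hcover ?_).trans (measureReal_union_le _ _)
    exact measure_union_ne_top hfin1 hfin2
  have h2 : volume.real (⋃ p ∈ P', MS K p r) ≤ (P'.card : ℝ) * (r ^ k * (4 * t)) := by
    refine (measureReal_biUnion_finset_le _ _).trans ?_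
    have : ∀ p ∈ P', volume.real (MS K p r) ≤ r ^ k * (4 * t) := by
      intro p hp
      rw [hP', Finset.mem_filter] at hp
      rw [(hM5 p r hr0).2.2, hfr]
      exact mul_le_mul_of_nonneg_left hp.2 (by positivity)
    refine (Finset.sum_le_sum this).trans (le_of_eq ?_)
    rw [Finset.sum_const, nsmul_eq_mul]
  have h3 : (P'.card : ℝ) * t ≤ C * δ ^ 2 := by
    have hcard : (P'.card : ℝ) ≤ P.card := by exact_mod_cast Finset.card_filter_le _ _
    have e : t = δ ^ (k - 1) * δ ^ 2 := by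
      rw [← pow_add]
      have : k - 1 + 2 = k + 1 := by omega
      rw [this, hδt]
    calc (P'.card : ℝ) * t ≤ P.card * t := mul_le_mul_of_nonneg_right hcard ht.le
      _ = (P.card * δ ^ (k - 1)) * δ ^ 2 := by
          rw [mul_assoc, ← e]
      _ ≤ C * δ ^ 2 := mul_le_mul_of_nonneg_right hP2 (by positivity)
  rw [← hδ2]
  have h4 : (P'.card : ℝ) * (r ^ k * (4 * t)) = 4 * r ^ k * (P'.card * t) := by ring
  have h5 : 4 * r ^ k * ((P'.card : ℝ) * t) ≤ 4 * r ^ k * (C * δ ^ 2) :=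
    mul_le_mul_of_nonneg_left h3 (by positivity)
  nlinarith

end Pool.Agent.W293.RP
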