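import Pool.Agent.W133.RP.St

set_option autoImplicit false

open MeasureTheory Set Filter Topology
open scoped Pointwise

namespace Pool.Agent.W293.RP

open Pool.Agent.W133.RP

/-- the case when `0` is interior -/
theorem layer0 {E : Type} [NormedAddCommGroup E] [NormedSpace ℝ E] [FiniteDimensional ℝ E]
    [MeasureSpace E] [BorelSpace E] [(volume : Measure E).IsAddHaarMeasure]
    (hd : 1 ≤ Module.finrank ℝ E) (L : Set E) (hc : Convex ℝ L) (hK : IsCompact L)
    (h0 : (0 : E) ∈ interior L) (z₀ : E) (hz₀ : z₀ ∈ frontier L) (r : ℝ) (hr : 0 < r) :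
    ∃ c : ℝ, 0 < c ∧ ∃ h₀ : ℝ, 0 < h₀ ∧ ∀ h : ℝ, 0 < h → h ≤ h₀ →
      c * h ≤ volume.real {x | x ∈ L ∧ ∃ z ∈ frontier L, ‖z - z₀‖ < r ∧ ‖x - z‖ ≤ h} := by
  have hn : L ∈ 𝓝 (0 : E) := mem_interior_iff_mem_nhds.mp h0
  set g := gauge L with hg
  have hgc : Continuous g := continuous_gauge hc hn
  have hg1 : ∀ x, g x ≤ 1 ↔ x ∈ L := by
    intro x
    rw [hg, gauge_le_one_iff_mem_closure hc hn, hK.isClosed.closure_eq]
  have hgf : ∀ x, g x = 1 ↔ x ∈ frontier L := fun x => gauge_eq_one_iff_mem_frontier hc hn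
  have hgi : ∀ x, g x < 1 ↔ x ∈ interior L := fun x => gauge_lt_one_iff_mem_interior hc hn
  have hgs : ∀ (s : ℝ) (x : E), 0 ≤ s → g (s • x) = s * g x := by
    intro s x hs
    rw [hg, gauge_smul_of_nonneg hs, smul_eq_mul]
  -- the bound
  obtain ⟨R0, hR0, hR⟩ : ∃ R0 : ℝ, 0 < R0 ∧ ∀ x ∈ L, ‖x‖ ≤ R0 := by
    obtain ⟨R, hR⟩ := hK.isBounded.exists_norm_le
    exact ⟨max R 1, by positivity, fun x hx => (hR x hx).trans (le_max_left _ _)⟩
  set Q : Set E := {y | 0 < g y ∧ ‖(g y)⁻¹ • y - z₀‖ < r} with hQ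
  have hQo : IsOpen Q := by
    have h1 : IsOpen {y | 0 < g y} := isOpen_lt continuous_const hgc
    have h2 : ContinuousOn (fun y => ‖(g y)⁻¹ • y - z₀‖) {y | 0 < g y} := by
      refine ContinuousOn.norm (ContinuousOn.sub (ContinuousOn.smul ?_ continuousOn_id)
        continuousOn_const)
      exact ContinuousOn.inv₀ hgc.continuousOn fun y hy => (ne_of_gt hy)
    have h3 := h2.isOpen_inter_preimage h1 (isOpen_Iio (a := r))
    exact h3
  have hgz : g z₀ = 1 := (hgf z₀).mpr hz₀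
  have hhalf : ((1 / 2 : ℝ) • z₀) ∈ interior L ∩ Q := by
    have h1 : g ((1 / 2 : ℝ) • z₀) = 1 / 2 := by
      rw [hgs _ _ (by norm_num), hgz, mul_one]
    refine ⟨(hgi _).mp (by rw [h1]; norm_num), ?_, ?_⟩
    · rw [h1]
      norm_num
    · rw [h1, smul_smul]
      norm_num
      exact hr
  set A : Set E := L ∩ Q with hA
  have hLfin : volume L ≠ ⊤ := hK.measure_lt_top.ne
  have hAfin : volume A ≠ ⊤ := ne_top_of_le_ne_top hLfin (measure_mono inter_subset_left)
  have hAm : MeasurableSet A := hK.isClosed.measurableSet.inter hQo.measurableSet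
  have hκ : 0 < volume.real A := by
    have h1 : 0 < volume (interior L ∩ Q) :=
      (isOpen_interior.inter hQo).measure_pos volume ⟨_, hhalf⟩
    have h2 : 0 < volume A :=
      h1.trans_le (measure_mono (inter_subset_inter_left _ interior_subset))
    exact ENNReal.toReal_pos h2.ne' hAfin
  set κ := volume.real A with hκd
  refine ⟨κ / (2 * R0), by positivity, R0, hR0, ?_⟩
  intro h hh hhR
  set η := h / (2 * R0) with hη
  have hη0 : 0 < η := by positivity
  have hη1 : η ≤ 1 / 2 := by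
    rw [hη, div_le_iff₀ (by positivity)]
    linarith
  have h1η : 0 < 1 - η := by linarith
  set A' : Set E := (1 - η) • A with hA'
  have hA'sub : A' ⊆ A := by
    rintro x ⟨y, ⟨hy1, hy2, hy3⟩, rfl⟩
    have hgy : g ((1 - η) • y) = (1 - η) * g y := hgs _ _ h1η.le
    refine ⟨(hg1 _).mp ?_, ?_, ?_⟩
    · show g ((1 - η) • y) ≤ 1
      rw [hgy]
      have := (hg1 y).mpr hy1
      nlinarith
    · show 0 < g ((1 - η) • y)
      rw [hgy]
      positivity
    · show ‖(g ((1 - η) • y))⁻¹ • ((1 - η) • y) - z₀‖ < r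
      rw [hgy, smul_smul]
      have : ((1 - η) * g y)⁻¹ * (1 - η) = (g y)⁻¹ := by
        field_simp
      rw [this]
      exact hy3
  have hA'm : MeasurableSet A' := hAm.const_smul₀ (1 - η)
  have hA'vol : volume.real A' = (1 - η) ^ Module.finrank ℝ E * κ := by
    rw [hA', measureReal_def, Measure.addHaar_smul, ENNReal.toReal_mul,
      ENNReal.toReal_ofReal (abs_nonneg _), abs_of_nonneg (by positivity)]
    rfl
  have hdiff : volume.real (A \ A') = κ - (1 - η) ^ Module.finrank ℝ E * κ := by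
    rw [← hA'vol, measureReal_sdiff hA'sub hA'm]
  have hpow : (1 - η) ^ Module.finrank ℝ E ≤ 1 - η := by
    have := pow_le_pow_of_le_one h1η.le (by linarith : 1 - η ≤ 1) hd
    simpa using this
  have hlow : κ / (2 * R0) * h ≤ volume.real (A \ A') := by
    rw [hdiff]
    have e : κ / (2 * R0) * h = κ * η := by
      rw [hη]
      ring
    rw [e]
    nlinarith
  refine hlow.trans ?_
  refine measureReal_mono ?_ ?_
  · rintro x ⟨⟨hx1, hx2, hx3⟩, hx4⟩
    have hgx1 : g x ≤ 1 := (hg1 x).mpr hx1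
    have hgx2 : 1 - η < g x := by
      by_contra hcon
      push Not at hcon
      apply hx4
      refine ⟨(1 - η)⁻¹ • x, ⟨(hg1 _).mp ?_, ?_, ?_⟩, ?_⟩
      · rw [hgs _ _ (by positivity), inv_mul_le_iff₀ h1η, mul_one]
        exact hcon
      · show 0 < g ((1 - η)⁻¹ • x)
        rw [hgs _ _ (by positivity)]
        positivity
      · show ‖(g ((1 - η)⁻¹ • x))⁻¹ • ((1 - η)⁻¹ • x) - z₀‖ < r
        rw [hgs _ _ (by positivity), smul_smul]
        have : ((1 - η)⁻¹ * g x)⁻¹ * (1 - η)⁻¹ = (g x)⁻¹ := by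
          field_simp
        rw [this]
        exact hx3
      · show (1 - η) • ((1 - η)⁻¹ • x) = x
        rw [smul_smul, mul_inv_cancel₀ h1η.ne', one_smul]
    refine ⟨hx1, (g x)⁻¹ • x, (hgf _).mp ?_, hx3, ?_⟩
    · rw [hgs _ _ (by positivity), inv_mul_cancel₀ hx2.ne']
    · have hz : (g x)⁻¹ • x ∈ L := by
        refine (hg1 _).mp ?_
        rw [hgs _ _ (by positivity), inv_mul_cancel₀ hx2.ne']
      have e : x - (g x)⁻¹ • x = (g x - 1) • ((g x)⁻¹ • x) := by
        rw [smul_smul, sub_mul, mul_inv_cancel₀ hx2.ne', one_mul, sub_smul, one_smul]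
      rw [e, norm_smul, Real.norm_eq_abs]
      have h5 : |g x - 1| ≤ η := by
        rw [abs_le]
        constructor <;> linarith
      have h6 := hR _ hz
      calc |g x - 1| * ‖(g x)⁻¹ • x‖ ≤ η * R0 :=
            mul_le_mul h5 h6 (norm_nonneg _) hη0.le
        _ = h / 2 := by
            rw [hη]
            field_simp
        _ ≤ h := by linarith
  · exact ne_top_of_le_ne_top hLfin (measure_mono fun x hx => hx.1)

theorem layer : S_LAYER := by
  intro k hk K hB z₀ hz₀ r hr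
  obtain ⟨hc, hK, w0, hw0⟩ := hB
  set L : Set (EuclideanSpace ℝ (Fin k)) := (fun y => w0 + y) ⁻¹' K with hL
  have hhom : L = (Homeomorph.addLeft w0) ⁻¹' K := rfl
  have hLc : Convex ℝ L := hc.translate_preimage_right w0
  have hLK : IsCompact L := by
    rw [hhom]
    exact (Homeomorph.addLeft w0).isCompact_preimage.mpr hK
  have hL0 : (0 : EuclideanSpace ℝ (Fin k)) ∈ interior L := by
    rw [hhom, ← (Homeomorph.addLeft w0).preimage_interior]
    show w0 + 0 ∈ interior K
    rwa [add_zero]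
  have hfr : ∀ y, y ∈ frontier L ↔ w0 + y ∈ frontier K := by
    intro y
    rw [hhom, ← (Homeomorph.addLeft w0).preimage_frontier]
    rfl
  have hz₀' : z₀ - w0 ∈ frontier L := by
    rw [hfr]
    rwa [add_sub_cancel]
  obtain ⟨c, hc0, h₀, hh₀, H⟩ := layer0 (E := EuclideanSpace ℝ (Fin k)) (by simpa using hk) L hLc
    hLK hL0 (z₀ - w0) hz₀' r hr
  refine ⟨c, hc0, h₀, hh₀, fun h hh hh' => ?_⟩
  refine (H h hh hh').trans (le_of_eq ?_)
  have e : {x | x ∈ L ∧ ∃ z ∈ frontier L, ‖z - (z₀ - w0)‖ < r ∧ ‖x - z‖ ≤ h} =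
      (fun y => w0 + y) ⁻¹' {x | x ∈ K ∧ ∃ z ∈ frontier K, ‖z - z₀‖ < r ∧ ‖x - z‖ ≤ h} := by
    ext x
    constructor
    · rintro ⟨h1, z, h2, h3, h4⟩
      refine ⟨h1, w0 + z, (hfr z).mp h2, ?_, ?_⟩
      · have : w0 + z - z₀ = z - (z₀ - w0) := by abel
        rw [this]
        exact h3
      · have : w0 + x - (w0 + z) = x - z := by abel
        show ‖w0 + x - (w0 + z)‖ ≤ h
        rw [this]
        exact h4
    · rintro ⟨h1, z, h2, h3, h4⟩
      refine ⟨h1, z - w0, (hfr _).mpr (by rwa [add_sub_cancel]), ?_, ?_⟩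
      · have : z - w0 - (z₀ - w0) = z - z₀ := by abel
        rw [this]
        exact h3
      · have : x - (z - w0) = w0 + x - z := by abel
        rw [this]
        exact h4
  rw [e, measureReal_def, measureReal_def, measure_preimage_add]

end Pool.Agent.W293.RP
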